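import Mathlib
import Pool.Agent.Work.MP_dddec1_pr.Defs
import Pool.Agent.Work.MP_dddec1_pr.Aug

open MeasureTheory ProbabilityTheory
open scoped NNReal

namespace Pool.Agent.Results.MP_dddec1_pr.NonUnique

open Pool.Agent.Work.MP_dddec1_pr

/-- Non-uniqueness for the degenerate quadratic BSDE with generator `|z^1|^2 / 2`: on every
complete probability space with a two-dimensional Brownian motion `(B1, B2)` and for every
`T > 0` there are `ξ` with `E exp |ξ| < ∞` and two solutions with different initial values such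
that `exp |Y|` and `exp |Y'|` are both of class (D). -/
theorem result {Ω : Type*} [mΩ : MeasurableSpace Ω] (P : Measure Ω) [IsProbabilityMeasure P]
    [P.IsComplete] (B1 B2 : ℝ≥0 → Ω → ℝ) (h1 : IsBrownianReal B1 P) (h2 : IsBrownianReal B2 P)
    (hind : IndepFun (fun ω t => B1 t ω) (fun ω t => B2 t ω) P) (T : ℝ≥0) (hT : 0 < T) :
    ∃ (ξ : Ω → ℝ) (Y Z1 Z2 Y' Z1' Z2' : ℝ≥0 → Ω → ℝ),
      Measurable[augFiltration P B1 B2 h1 h2 T] ξ ∧ Integrable (fun ω => Real.exp |ξ ω|) P ∧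
      IsSolution (augFiltration P B1 B2 h1 h2) P T B1 B2 ξ Y Z1 Z2 ∧
      IsSolution (augFiltration P B1 B2 h1 h2) P T B1 B2 ξ Y' Z1' Z2' ∧
      IsClassD (augFiltration P B1 B2 h1 h2) P T (fun t ω => Real.exp |Y t ω|) ∧
      IsClassD (augFiltration P B1 B2 h1 h2) P T (fun t ω => Real.exp |Y' t ω|) ∧
      ∀ ω, Y 0 ω ≠ Y' 0 ω := by
  obtain ⟨C1, c1, e1⟩ := exists_fbm h1 h2 hind (augFiltration_eq h1 h2)
  obtain ⟨C2, c2, e2⟩ := exists_fbm (𝓕 := augFiltration P B1 B2 h1 h2) h2 h1 hind.symm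
    (fun s => by rw [augFiltration_eq h1 h2, sup_comm (natSigma B1 s)])
  obtain ⟨ξ, Y, Z1, Z2, Y', Z1', Z2', a1, a2, a3, a4, a5, a6, a7⟩ := main_abstract c1 c2
    (fun N hN => by
      rw [augFiltration_eq h1 h2]
      exact le_sup_right (a := natSigma B1 0 ⊔ natSigma B2 0) _
        (MeasurableSpace.measurableSet_generateFrom hN)) hT
  exact ⟨ξ, Y, Z1, Z2, Y', Z1', Z2', a1, a2, a3.congr e1 e2, a4.congr e1 e2, a5, a6, a7⟩

end Pool.Agent.Results.MP_dddec1_pr.NonUnique
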